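import Pool.Agent.Q98.SPN.Stm

set_option autoImplicit false

/-!
# Project SPN (helper98), job UNI: unitarisation of a matrix representation of a finite group
-/

namespace Pool.Agent.Q176.SPN

open Pool.Agent.Q98.SPN Pool.Agent.H172R2.GS
open scoped Matrix.Norms.L2Operator Matrix MatrixOrder ComplexOrder

/-- a positive definite matrix is `Sᴴ S` with invertible `S` -/
theorem exists_sqrt {d : ℕ} {h : Matrix (Fin d) (Fin d) ℂ} (hpos : h.PosDef) :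
    ∃ S : (Matrix (Fin d) (Fin d) ℂ)ˣ, h = (S : Matrix (Fin d) (Fin d) ℂ)ᴴ * (S : Matrix (Fin d) (Fin d) ℂ) := by
  obtain ⟨S, hS⟩ : ∃ S : Matrix (Fin d) (Fin d) ℂ, h = Sᴴ * S :=
    CStarAlgebra.nonneg_iff_eq_star_mul_self.1 (Matrix.nonneg_iff_posSemidef.2 hpos.posSemidef)
  have hu : IsUnit S := by
    have h1 := hpos.isUnit
    rw [Matrix.isUnit_iff_isUnit_det, hS, Matrix.det_mul] at h1
    rw [Matrix.isUnit_iff_isUnit_det]
    exact isUnit_of_mul_isUnit_right h1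
  obtain ⟨T, hT⟩ := hu
  exact ⟨T, by rw [hT]; exact hS⟩

/-- Job UNI. -/
theorem UNI_ok : S_UNI := by
  intro G _ _ d ρ
  obtain ⟨h, hh⟩ : ∃ h : Matrix (Fin d) (Fin d) ℂ, h = ∑ g : G, (ρ g)ᴴ * ρ g := ⟨_, rfl⟩
  have hpos : h.PosDef := by
    classical
    rw [hh, ← Finset.add_sum_erase Finset.univ _ (Finset.mem_univ (1 : G))]
    have h1 : ((ρ 1)ᴴ * ρ 1).PosDef := by
      rw [map_one, Matrix.conjTranspose_one, mul_one]
      exact Matrix.PosDef.one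
    exact h1.add_posSemidef (Matrix.posSemidef_sum _ fun g _ => Matrix.posSemidef_conjTranspose_mul_self _)
  have hinv : ∀ a : G, (ρ a)ᴴ * h * ρ a = h := by
    intro a
    rw [hh, Finset.mul_sum, Finset.sum_mul]
    refine Fintype.sum_equiv (Equiv.mulRight a) _ _ fun g => ?_
    show _ = (ρ (g * a))ᴴ * ρ (g * a)
    rw [map_mul, Matrix.conjTranspose_mul]
    simp only [mul_assoc]
  obtain ⟨S, hS⟩ := exists_sqrt hpos
  refine ⟨S, fun g => ?_⟩
  obtain ⟨A, hA⟩ : ∃ A : Matrix (Fin d) (Fin d) ℂ, A = (S : Matrix (Fin d) (Fin d) ℂ) := ⟨_, rfl⟩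
  obtain ⟨B, hB⟩ : ∃ B : Matrix (Fin d) (Fin d) ℂ, B = ((S⁻¹ : (Matrix (Fin d) (Fin d) ℂ)ˣ) : Matrix (Fin d) (Fin d) ℂ) :=
    ⟨_, rfl⟩
  have hAB : A * B = 1 := by rw [hA, hB, Units.mul_inv]
  rw [← hA] at hS
  rw [← hA, ← hB, Matrix.conjTranspose_mul, Matrix.conjTranspose_mul]
  have h2 := hinv g
  rw [hS] at h2
  calc Bᴴ * ((ρ g)ᴴ * Aᴴ) * (A * ρ g * B) = Bᴴ * ((ρ g)ᴴ * (Aᴴ * A) * ρ g) * B := by
        simp only [mul_assoc]
    _ = (A * B)ᴴ * (A * B) := by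
        rw [h2, Matrix.conjTranspose_mul]
        simp only [mul_assoc]
    _ = 1 := by rw [hAB, Matrix.conjTranspose_one, mul_one]

end Pool.Agent.Q176.SPN
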